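import Pool.Agent.Q138.PS.UY
import Pool.Agent.Results.MP_cc0c1a_nt.AlmostAllPositions

/-!
# Every word at every position of windows around `± ⌊α P(n)⌋`

Let `q ≥ 2`. Outside a set of real numbers of Hausdorff dimension at most `q / (q + 1 / (q 2 ^ (q - 1)))` (that is `8 / 9` for
`q = 2`) every `α > 0` has the following property. There is `η > 0` such that for every nonzero finite configuration `x` and
every word `w`: there is `κ > 0` such that for all large `N` and ALL integral polynomials `P` of degree `q` with positive leading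
coefficient and coefficients of size at most `N ^ η`, for all but `N ^ (1 - κ)` of the `n ≤ N` the word `w` occurs in the orbit
of `x` starting at EVERY position `j ≥ 0` with `|j - ⌊α P(n)⌋| ≤ N ^ κ`; and for all `L` and `ε > 0`, for all large `N` and all
these `P`, for all but `ε N` of the `n ≤ N` it occurs starting at EVERY position `j ≤ 0` with `|j + ⌊α P(n)⌋| ≤ L`.
-/

set_option autoImplicit false

namespace Pool.Agent.Results.MP_cc0c1a_nt.PositionsAlongRealMultiples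

open Finset Filter Topology
open Pool.Agent.Q138.PS
open Pool.Agent.H429R2.Auto
open Pool.Agent.Results.MP_cc0c1a_nt.AlmostAllPositions (Shows missed)

open Classical in
/-- the number of the `1 ≤ n ≤ N` such that the word `w` is not shown by any `F^m(x)` at some position `j ≥ 0` with
`|j - ⌊α P(n)⌋| ≤ W` -/
noncomputable def right (x : Conf) (w : List (Fin 6)) (W : ℕ) (α : ℝ) (P : Polynomial ℤ) (N : ℕ) : ℕ :=
  ((Icc 1 N).filter fun n : ℕ => ∃ j : ℕ, (∀ m : ℕ, ¬ Shows (F^[m] x) w (j : ℤ)) ∧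
    |(j : ℤ) - (⌊α * ((P.eval (n : ℤ) : ℤ) : ℝ)⌋₊ : ℤ)| ≤ W).card

open Classical in
/-- the number of the `1 ≤ n ≤ N` such that the word `w` is not shown by any `F^m(x)` at some position `-j ≤ 0` with
`|j - ⌊α P(n)⌋| ≤ W` -/
noncomputable def left (x : Conf) (w : List (Fin 6)) (W : ℕ) (α : ℝ) (P : Polynomial ℤ) (N : ℕ) : ℕ :=
  ((Icc 1 N).filter fun n : ℕ => ∃ j : ℕ, (∀ m : ℕ, ¬ Shows (F^[m] x) w (-(j : ℤ))) ∧
    |(j : ℤ) - (⌊α * ((P.eval (n : ℤ) : ℤ) : ℝ)⌋₊ : ℤ)| ≤ W).card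

/-- the missed positions to the right -/
def MR (x : Conf) (w : List (Fin 6)) (j : ℕ) : Prop := ∀ m : ℕ, ¬ Shows (F^[m] x) w (j : ℤ)

/-- the missed positions to the left -/
def ML (x : Conf) (w : List (Fin 6)) (j : ℕ) : Prop := ∀ m : ℕ, ¬ Shows (F^[m] x) w (-(j : ℤ))

theorem near (j m W : ℕ) : |(j : ℤ) - (m : ℤ)| ≤ W ↔ j ≤ m + W ∧ m ≤ j + W := by
  rw [abs_le]
  omega

theorem right_eq (x : Conf) (w : List (Fin 6)) (W : ℕ) (α : ℝ) (P : Polynomial ℤ) (N : ℕ) :
    (right x w W α P N : ℝ) = cnP (nb (MR x w) W) α P N := by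
  classical
  unfold right cnP cn
  refine congrArg _ (congrArg _ ?_)
  ext n
  rw [mem_filter, mem_filter]
  exact and_congr_right fun _ => exists_congr fun j => and_congr_right fun _ => near j _ W

theorem left_eq (x : Conf) (w : List (Fin 6)) (W : ℕ) (α : ℝ) (P : Polynomial ℤ) (N : ℕ) :
    (left x w W α P N : ℝ) = cnP (nb (ML x w) W) α P N := by
  classical
  unfold left cnP cn
  refine congrArg _ (congrArg _ ?_)
  ext n
  rw [mem_filter, mem_filter]
  exact and_congr_right fun _ => exists_congr fun j => and_congr_right fun _ => near j _ W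

/-- the finite configurations -/
abbrev FC : Type := {x : Conf // IsFin x}

instance : Countable FC := by
  have : Function.Injective (fun x : FC => (Finsupp.ofSupportFinite x.1 (by
      have := x.2
      unfold IsFin at this
      exact this) : ℤ →₀ Fin 6)) := by
    intro x y hxy
    have h := congrArg (fun g : ℤ →₀ Fin 6 => (g : ℤ → Fin 6)) hxy
    exact Subtype.ext h
  exact this.countable

theorem right_few (x : Conf) (hx : IsFin x) (hx0 : x ≠ 0) (w : List (Fin 6)) :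
    ∃ δ C : ℝ, 0 < δ ∧ ∀ Y : ℕ, 1 ≤ Y → cn (MR x w) Y ≤ C * (Y : ℝ) ^ (1 - δ) := by
  classical
  obtain ⟨-, δ, hδ, C, hC⟩ := AlmostAllPositions.result x hx hx0 w
  refine ⟨min δ 1, |C| * 2, lt_min hδ one_pos, fun Y hY => ?_⟩
  have hY1 : (1 : ℝ) ≤ Y := by exact_mod_cast hY
  have hfin : (missed x w ∩ Set.Icc 0 (Y : ℤ)).Finite :=
    (Set.finite_Icc (0 : ℤ) (Y : ℤ)).subset Set.inter_subset_right
  have h1 : cn (MR x w) Y ≤ ((missed x w ∩ Set.Icc 0 (Y : ℤ)).ncard : ℝ) := by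
    unfold cn
    refine Nat.cast_le.2 ?_
    rw [← Finset.card_image_of_injective _ (fun a b hab => by simpa using hab : Function.Injective (fun j : ℕ => (j : ℤ))),
      ← Set.ncard_coe_finset]
    apply Set.ncard_le_ncard _ hfin
    intro j hj
    rw [mem_coe, mem_image] at hj
    obtain ⟨i, hi, rfl⟩ := hj
    rw [mem_filter, mem_Icc] at hi
    refine ⟨hi.2, ?_, ?_⟩
    · exact_mod_cast Nat.zero_le i
    · exact_mod_cast hi.1.2
  have hm : (0 : ℝ) ≤ 1 - min δ 1 := by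
    have := min_le_right δ 1
    linarith
  calc cn (MR x w) Y ≤ ((missed x w ∩ Set.Icc 0 (Y : ℤ)).ncard : ℝ) := h1
    _ ≤ C * ((Y : ℝ) + 1) ^ (1 - δ) := hC Y
    _ ≤ |C| * ((Y : ℝ) + 1) ^ (1 - δ) := mul_le_mul_of_nonneg_right (le_abs_self C) (by positivity)
    _ ≤ |C| * ((Y : ℝ) + 1) ^ (1 - min δ 1) := by
        apply mul_le_mul_of_nonneg_left _ (abs_nonneg C)
        apply Real.rpow_le_rpow_of_exponent_le (by linarith)
        have := min_le_left δ 1
        linarith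
    _ ≤ |C| * (2 * (Y : ℝ) ^ (1 - min δ 1)) := by
        apply mul_le_mul_of_nonneg_left _ (abs_nonneg C)
        calc ((Y : ℝ) + 1) ^ (1 - min δ 1) ≤ (2 * (Y : ℝ)) ^ (1 - min δ 1) :=
              Real.rpow_le_rpow (by positivity) (by linarith) hm
          _ = 2 ^ (1 - min δ 1) * (Y : ℝ) ^ (1 - min δ 1) := Real.mul_rpow (by norm_num) (by linarith)
          _ ≤ 2 * (Y : ℝ) ^ (1 - min δ 1) := by
              apply mul_le_mul_of_nonneg_right _ (by positivity)
              calc (2 : ℝ) ^ (1 - min δ 1) ≤ 2 ^ (1 : ℝ) :=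
                    Real.rpow_le_rpow_of_exponent_le (by norm_num) (by
                      have : 0 < min δ 1 := lt_min hδ one_pos
                      linarith)
                _ = 2 := Real.rpow_one 2
    _ = |C| * 2 * (Y : ℝ) ^ (1 - min δ 1) := by ring

theorem left_zero (x : Conf) (hx : IsFin x) (hx0 : x ≠ 0) (w : List (Fin 6)) (δ : ℝ) (hδ : 0 < δ) :
    ∀ᶠ Y : ℕ in atTop, cn (ML x w) Y ≤ δ * Y := by
  classical
  obtain ⟨h, -⟩ := AlmostAllPositions.result x hx hx0 w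
  filter_upwards [h.eventually_lt_const (show (0 : ℝ) < δ / 3 by positivity), eventually_ge_atTop 1] with Y hY hY1
  have hY1r : (1 : ℝ) ≤ Y := by exact_mod_cast hY1
  have hfin : (missed x w ∩ Set.Icc (-(Y : ℤ)) (Y : ℤ)).Finite :=
    (Set.finite_Icc (-(Y : ℤ)) (Y : ℤ)).subset Set.inter_subset_right
  have h1 : cn (ML x w) Y ≤ ((missed x w ∩ Set.Icc (-(Y : ℤ)) (Y : ℤ)).ncard : ℝ) := by
    unfold cn
    refine Nat.cast_le.2 ?_
    rw [← Finset.card_image_of_injective _ (fun a b hab => by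
        have : (a : ℤ) = b := by simpa using hab
        exact_mod_cast this : Function.Injective (fun j : ℕ => -(j : ℤ))), ← Set.ncard_coe_finset]
    apply Set.ncard_le_ncard _ hfin
    intro j hj
    rw [mem_coe, mem_image] at hj
    obtain ⟨i, hi, rfl⟩ := hj
    rw [mem_filter, mem_Icc] at hi
    refine ⟨hi.2, ?_, ?_⟩
    · have := hi.1.2
      omega
    · omega
  have h2 : (0 : ℝ) < 2 * Y + 1 := by positivity
  rw [div_lt_iff₀ h2] at hY
  have h3 : δ / 3 * (2 * (Y : ℝ) + 1) ≤ δ / 3 * (3 * Y) := by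
    gcongr
    linarith
  linarith

/-- **Theorem.** -/
theorem result (q : ℕ) (hq : 2 ≤ q) :
    ∃ E : Set ℝ, dimH E ≤ ENNReal.ofReal (q / (q + 1 / ((q : ℝ) * 2 ^ (q - 1)))) ∧ ∀ α : ℝ, 0 < α → α ∉ E →
      ∃ η : ℝ, 0 < η ∧ ∀ x : Conf, IsFin x → x ≠ 0 → ∀ w : List (Fin 6),
        (∃ κ : ℝ, 0 < κ ∧ ∀ᶠ N : ℕ in atTop, ∀ P : Polynomial ℤ, P.natDegree = q → 0 < P.leadingCoeff →
          (∀ j, |((P.coeff j : ℤ) : ℝ)| ≤ (N : ℝ) ^ η) → (right x w ⌊(N : ℝ) ^ κ⌋₊ α P N : ℝ) ≤ (N : ℝ) ^ (1 - κ)) ∧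
        ∀ (L : ℕ) (ε : ℝ), 0 < ε → ∀ᶠ N : ℕ in atTop, ∀ P : Polynomial ℤ, P.natDegree = q → 0 < P.leadingCoeff →
          (∀ j, |((P.coeff j : ℤ) : ℝ)| ≤ (N : ℝ) ^ η) → (left x w L α P N : ℝ) ≤ ε * N := by
  classical
  obtain ⟨E, hE, hg⟩ := exc_win (ι := FC × List (Fin 6)) q hq (fun i => MR i.1.1 i.2)
  obtain ⟨E', hE', hg'⟩ := zero_win (ι := FC × List (Fin 6)) q hq (fun i => ML i.1.1 i.2)
  refine ⟨E ∪ E', ?_, fun α hα hαE => ?_⟩
  · rw [dimH_union]
    exact max_le hE hE'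
  obtain ⟨η, hη, h1⟩ := hg α hα (fun h => hαE (Or.inl h))
  obtain ⟨η', hη', h1'⟩ := hg' α hα (fun h => hαE (Or.inr h))
  refine ⟨min η η', lt_min hη hη', fun x hx hx0 w => ⟨?_, fun L ε hε => ?_⟩⟩
  · obtain ⟨δ, C, hδ, hC⟩ := right_few x hx hx0 w
    obtain ⟨κ, hκ, -, h2⟩ := h1 (⟨x, hx⟩, w) C δ hδ hC
    refine ⟨κ, hκ, ?_⟩
    filter_upwards [h2, eventually_ge_atTop 1] with N hN hN1
    intro P hdeg hlead hco
    have hN1r : (1 : ℝ) ≤ N := by exact_mod_cast hN1
    rw [right_eq]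
    exact hN _ (Nat.floor_le (by positivity)) P hdeg hlead fun j => (hco j).trans
      (Real.rpow_le_rpow_of_exponent_le hN1r (min_le_left _ _))
  · have h2 := h1' (⟨x, hx⟩, w) (left_zero x hx hx0 w) L ε hε
    filter_upwards [h2, eventually_ge_atTop 1] with N hN hN1
    intro P hdeg hlead hco
    have hN1r : (1 : ℝ) ≤ N := by exact_mod_cast hN1
    rw [left_eq]
    exact hN P hdeg hlead fun j => (hco j).trans (Real.rpow_le_rpow_of_exponent_le hN1r (min_le_right _ _))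

end Pool.Agent.Results.MP_cc0c1a_nt.PositionsAlongRealMultiples
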