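import Pool.Agent.Q138.PS.XK
import Pool.Agent.Results.MP_cc0c1a_nt.PositionsAlongRealMultiples

/-!
# Every word at every position of long windows around `c n^j α^n`

For almost every real number `α > 1` the following holds for every nonzero finite configuration `x` and every word `w`. There is
`κ > 0` such that for all algebraic numbers `c > 0`, all integers `j`, all real `D` and all large `n` the word `w` occurs in the
orbit of `x` starting at EVERY position `p` with `|p - c n^j α^n| ≤ D (c n^j α^n)^κ`.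
-/

set_option autoImplicit false

namespace Pool.Agent.Results.MP_cc0c1a_nt.PositionsNearPowers

open Finset Filter Topology MeasureTheory
open Pool.Agent.Q138.PS
open Pool.Agent.H429R2.Auto
open Pool.Agent.Results.MP_cc0c1a_nt.AlmostAllPositions (Shows)
open Pool.Agent.Results.MP_cc0c1a_nt.PositionsAlongRealMultiples (MR FC right_few)

theorem count (x : Conf) (hx : IsFin x) (hx0 : x ≠ 0) (w : List (Fin 6)) :
    ∃ δ C : ℝ, 0 < δ ∧ ∀ T : ℝ, 1 ≤ T →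
      (({m | m ∈ {m : ℕ | 1 ≤ m ∧ MR x w m} ∧ (m : ℝ) ≤ T}).ncard : ℝ) ≤ C * T ^ (1 - δ) := by
  classical
  obtain ⟨δ, C, hδ, hC⟩ := right_few x hx hx0 w
  refine ⟨min δ 1, |C|, lt_min hδ one_pos, fun T hT => ?_⟩
  have hT0 : 0 < T := by linarith
  have hfl : (⌊T⌋₊ : ℝ) ≤ T := Nat.floor_le hT0.le
  have h1 : 1 ≤ ⌊T⌋₊ := Nat.le_floor (by exact_mod_cast hT)
  have hsub : {m | m ∈ {m : ℕ | 1 ≤ m ∧ MR x w m} ∧ (m : ℝ) ≤ T} ⊆
      (((Icc 1 ⌊T⌋₊).filter (MR x w) : Finset ℕ) : Set ℕ) := by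
    rintro m ⟨⟨h2, h3⟩, h4⟩
    rw [mem_coe, mem_filter, mem_Icc]
    exact ⟨⟨h2, Nat.le_floor h4⟩, h3⟩
  have h2 : (({m | m ∈ {m : ℕ | 1 ≤ m ∧ MR x w m} ∧ (m : ℝ) ≤ T}).ncard : ℝ) ≤ cn (MR x w) ⌊T⌋₊ := by
    have := Set.ncard_le_ncard hsub (finite_toSet _)
    rw [Set.ncard_coe_finset] at this
    unfold cn
    refine le_trans (Nat.cast_le.2 this) (le_of_eq ?_)
    congr 2
  refine h2.trans ((hC ⌊T⌋₊ h1).trans ?_)
  have h1r : (1 : ℝ) ≤ ⌊T⌋₊ := by exact_mod_cast h1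
  have h3 : (⌊T⌋₊ : ℝ) ^ (1 - δ) ≤ T ^ (1 - min δ 1) := by
    calc (⌊T⌋₊ : ℝ) ^ (1 - δ) ≤ (⌊T⌋₊ : ℝ) ^ (1 - min δ 1) :=
          Real.rpow_le_rpow_of_exponent_le h1r (by have := min_le_left δ 1; linarith)
      _ ≤ T ^ (1 - min δ 1) := Real.rpow_le_rpow (by linarith) hfl (by have := min_le_right δ 1; linarith)
  calc C * (⌊T⌋₊ : ℝ) ^ (1 - δ) ≤ |C| * (⌊T⌋₊ : ℝ) ^ (1 - δ) := mul_le_mul_of_nonneg_right (le_abs_self C) (by positivity)
    _ ≤ |C| * T ^ (1 - min δ 1) := mul_le_mul_of_nonneg_left h3 (abs_nonneg C)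

/-- **Theorem.** For almost every real `α > 1`: for every nonzero finite configuration `x` and every word `w` there is `κ > 0`
such that for all algebraic `c > 0`, all integers `j`, all real `D` and all large `n` the word `w` is shown by some `F^s(x)` at
EVERY position `p` with `|p - c n^j α^n| ≤ D (c n^j α^n)^κ`. -/
theorem result : ∀ᵐ α : ℝ, 1 < α → ∀ x : Conf, IsFin x → x ≠ 0 → ∀ w : List (Fin 6), ∃ κ : ℝ, 0 < κ ∧
    ∀ c : ℝ, 0 < c → IsAlgebraic ℚ c → ∀ (j : ℤ) (D : ℝ), ∀ᶠ n : ℕ in atTop, ∀ p : ℕ, 1 ≤ p → NearPow α c j D κ n p →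
      ∃ s : ℕ, Shows (F^[s] x) w (p : ℤ) := by
  have h0 := pow_ae_small (ι := {x : FC // x.1 ≠ 0} × List (Fin 6)) (fun i => {m : ℕ | 1 ≤ m ∧ MR i.1.1.1 i.2 m})
    fun i => count i.1.1.1 i.1.1.2 i.1.2 i.2
  filter_upwards [h0] with α h1 hα x hx hx0 w
  obtain ⟨κ, hκ, h2⟩ := h1 hα (⟨⟨x, hx⟩, hx0⟩, w)
  refine ⟨κ, hκ, fun c hc hca j D => ?_⟩
  filter_upwards [h2 c hc hca j D] with n hn p hp hpn
  by_contra hcon
  push Not at hcon
  exact hn p hpn ⟨hp, hcon⟩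

end Pool.Agent.Results.MP_cc0c1a_nt.PositionsNearPowers
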