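import Mathlib
import Pool.Agent.Q263.WE.AutF

/-!
The base-6 automaton of multiplication by 3/2, started at the configurations of the powers `b ^ d`,
`d ≤ (log b) ^ κ`, of almost all integers `b`.
-/

set_option autoImplicit false

open Filter Topology

namespace Pool.Agent.Results.MP_cc0c1a_nt.PowersOfAlmostAllIntegers

open Pool.Agent.H429R2.Auto (F)
open Pool.Agent.Q263.WE (conf ShowsAt)

open Classical in
theorem result : ∃ κ : ℝ, 0 < κ ∧ ∃ E : Set ℕ,
    (∀ᶠ x : ℕ in atTop, ((E ∩ Set.Iic x).ncard : ℝ) ≤ x * Real.exp (-(Real.log x) ^ κ)) ∧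
    ∀ b : ℕ, b ∉ E → ∀ d : ℕ, 1 ≤ d → (d : ℝ) ≤ (Real.log b) ^ κ →
      ∀ u : List (Fin 6), (6 : ℝ) ^ u.length ≤ (Real.log b) ^ κ →
      ∀ j : ℤ, (j : ℝ) ≤ Real.exp ((Real.log b) ^ κ) →
      ∀ s T : ℕ, j ≤ s → 1 ≤ s + j → s + T - j ≤ Nat.log 2 (b ^ d) →
        |(((Finset.Ico s (s + T)).filter (fun n => ShowsAt (F^[n] (conf (b ^ d))) u j)).card : ℝ) -
          T / 6 ^ u.length| ≤ ((Nat.log 2 (b ^ d) : ℝ) + 1) / (Real.log b) ^ κ := by
  obtain ⟨κ, hκ0, hκ40, h⟩ := Pool.Agent.Q263.WE.auto_M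
  obtain ⟨E, hE1, hE2⟩ := Pool.Agent.Q263.WE.globalize (κ / 2) (by linarith) (by linarith)
    (fun M b => Pool.Agent.Q263.WE.AutGood ((Real.log M) ^ (κ / 2)) ((Real.log M) ^ κ) b)
    (fun b => 1 ≤ Real.log b → Pool.Agent.Q263.WE.AutGood ((Real.log b) ^ (κ / 2 / 2))
      ((Real.log b) ^ (κ / 2 / 2)) b)
    (by
      intro M b hb hbM _ hP hlb d hd hdb u hu j hj s T h1 h2 h3
      have hlM : Real.log b ≤ Real.log M :=
        Real.log_le_log (by exact_mod_cast hb) (by exact_mod_cast hbM)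
      have hpow : (Real.log b) ^ (κ / 2 / 2) ≤ (Real.log M) ^ κ :=
        (Real.rpow_le_rpow_of_exponent_le hlb (by linarith)).trans
          (Real.rpow_le_rpow (by linarith) hlM hκ0.le)
      have hpow2 : (Real.log b) ^ (κ / 2 / 2) ≤ (Real.log M) ^ (κ / 2) :=
        (Real.rpow_le_rpow_of_exponent_le hlb (by linarith)).trans
          (Real.rpow_le_rpow (by linarith) hlM (by linarith))
      refine (hP d hd (hdb.trans hpow) u (hu.trans hpow) j
        (hj.trans (Real.exp_le_exp.2 hpow2)) s T h1 h2 h3).trans ?_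
      apply div_le_div_of_nonneg_left (by positivity) _ hpow
      exact Real.rpow_pos_of_pos (by linarith) _)
    (h.mono fun M hM => by
      obtain ⟨X, h1, h2⟩ := hM
      exact ⟨X, h1, fun m hm hmX => h2 m hm hmX⟩)
  refine ⟨κ / 2 / 2, by linarith, E, hE1, ?_⟩
  intro b hbE d hd hdb u hu j hj s T h1 h2 h3
  have hlb : 1 ≤ Real.log b := by
    by_contra hlt
    push Not at hlt
    have h0 : 0 ≤ Real.log b := Real.log_natCast_nonneg b
    have h1 : (Real.log b) ^ (κ / 2 / 2) < 1 := Real.rpow_lt_one h0 hlt (by linarith)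
    have h2 : (1 : ℝ) ≤ d := by exact_mod_cast hd
    linarith
  have hb : 1 ≤ b := by
    rcases Nat.eq_zero_or_pos b with rfl | hb
    · rw [Nat.cast_zero, Real.log_zero] at hlb
      linarith
    · exact hb
  exact hE2 b hb hbE hlb d hd hdb u hu j hj s T h1 h2 h3

end Pool.Agent.Results.MP_cc0c1a_nt.PowersOfAlmostAllIntegers
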