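import Pool.Agent.Q84.NX.Win
import Pool.Agent.Results.MP_cc0c1a_nt.AlmostAllPositions

/-!
# All words at all positions near the multiples of the primes of a string

Let `𝒳` be a finite set of nonzero finite configurations and `L` a natural number. There is `c > 0`, for all `κ > 0` and
`m` there is `c' > 0` and for every `Z` a number `D` with the following property. For every large `X` there is a set `S`
of at most `(log X) ^ (49 / 50)` primes, all larger than `Z`, such that for EVERY function `f` with values `1` and `-1` on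
the primes at least `X ^ (1 - κ)` integers `r`, `X < r ≤ 3X`, satisfy: the interval `[r, r + D]` contains at least `m`
primes, and for every prime `p` in it

* the Legendre symbol `(p / q)` is `f q` for all odd primes `q ≤ c' log X` outside `S`;
* EVERY word `w` of length at most `L` occurs in the orbit of EVERY `x` in `𝒳` at EVERY position `j ≥ 0` within `p ^ c`
  of a multiple `k p`, `1 ≤ k ≤ p ^ c`.

Method: the starting result `AlmostAllPositions` bounds the number of missed positions; few primes have a missed position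
near one of their small multiples (`Q84/NX/Win`); the Maynard-Tao theorem relative to a modulus which is a small power of
`X`, in the form that it avoids arbitrary exceptional sets of size `X ^ (1 - η)` (`Q84/MB/E1-E4`), gives the strings.
-/

set_option autoImplicit false

open scoped Classical

namespace Pool.Agent.Results.MP_cc0c1a_nt.StringsOfPositions

open Finset Filter
open Pool.Agent.H429R2.Auto
open Pool.Agent.Results.MP_cc0c1a_nt.AlmostAllPositions (Shows missed)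

/-- every word of length at most `L` occurs in the orbit of every `x` in `𝒳` at every position `j ≥ 0` within `p ^ c` of
a multiple `k p`, `1 ≤ k ≤ p ^ c` -/
def Fine (𝒳 : Finset Conf) (L : ℕ) (c : ℝ) (p : ℕ) : Prop :=
  ∀ k j : ℕ, 1 ≤ k → (k : ℝ) ≤ (p : ℝ) ^ c → |(j : ℝ) - k * p| ≤ (p : ℝ) ^ c →
    ∀ x ∈ 𝒳, ∀ w : List (Fin 6), w.length ≤ L → ∃ n : ℕ, Shows (F^[n] x) w (j : ℤ)

/-- some word of length at most `L` is missed at the position `b` by the orbit of some `x` in `𝒳` -/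
def Miss (𝒳 : Finset Conf) (L b : ℕ) : Prop :=
  ∃ x ∈ 𝒳, ∃ w : List (Fin 6), w.length ≤ L ∧ (b : ℤ) ∈ missed x w

/-- the words of length at most `L` -/
theorem words_finite (L : ℕ) : {w : List (Fin 6) | w.length ≤ L}.Finite := List.finite_length_le (Fin 6) L

/-- the number of the missed positions, for all configurations and words at once -/
theorem few (𝒳 : Finset Conf) (h𝒳 : ∀ x ∈ 𝒳, IsFin x ∧ x ≠ 0) (L : ℕ) : ∃ C δ : ℝ, 0 < δ ∧ δ ≤ 1 ∧ ∀ Y : ℕ,
    (((range (Y + 1)).filter (Miss 𝒳 L)).card : ℝ) ≤ C * ((Y : ℝ) + 1) ^ (1 - δ) := by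
  obtain ⟨W, hW⟩ : ∃ W : Finset (Conf × List (Fin 6)), W = 𝒳 ×ˢ (words_finite L).toFinset := ⟨_, rfl⟩
  have hWm : ∀ i ∈ W, ∃ C δ : ℝ, 0 ≤ C ∧ 0 < δ ∧ ∀ Y : ℕ, ((missed i.1 i.2 ∩ Set.Icc 0 (Y : ℤ)).ncard : ℝ) ≤
      C * ((Y : ℝ) + 1) ^ (1 - δ) := by
    intro i hi
    rw [hW, mem_product] at hi
    obtain ⟨h1, h2⟩ := h𝒳 i.1 hi.1
    obtain ⟨δ, hδ, C, hC⟩ := (AlmostAllPositions.result i.1 h1 h2 i.2).2
    refine ⟨|C|, δ, abs_nonneg _, hδ, fun Y => (hC Y).trans ?_⟩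
    exact mul_le_mul_of_nonneg_right (le_abs_self _) (by positivity)
  choose! C δ hC0 hδ0 hC using hWm
  obtain ⟨δ₀, hδ₀⟩ : ∃ δ₀ : ℝ, 0 < δ₀ ∧ δ₀ ≤ 1 ∧ ∀ i ∈ W, δ₀ ≤ δ i := by
    rcases W.eq_empty_or_nonempty with h | h
    · exact ⟨1, one_pos, le_rfl, by simp [h]⟩
    · refine ⟨min (W.inf' h δ) 1, lt_min ?_ one_pos, min_le_right _ _, fun i hi => (min_le_left _ _).trans
        (inf'_le _ hi)⟩
      rw [lt_inf'_iff]
      exact hδ0
  obtain ⟨h1, h2, h3⟩ := hδ₀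
  refine ⟨∑ i ∈ W, C i, δ₀, h1, h2, fun Y => ?_⟩
  have hY : (1 : ℝ) ≤ (Y : ℝ) + 1 := by
    have : (0 : ℝ) ≤ Y := Nat.cast_nonneg _
    linarith
  have hsub : (range (Y + 1)).filter (Miss 𝒳 L) ⊆
      W.biUnion fun i => (range (Y + 1)).filter fun b : ℕ => (b : ℤ) ∈ missed i.1 i.2 := by
    intro b hb
    rw [mem_filter] at hb
    obtain ⟨hb1, x, hx, w, hw, hb2⟩ := hb
    rw [mem_biUnion]
    refine ⟨(x, w), ?_, mem_filter.2 ⟨hb1, hb2⟩⟩
    rw [hW, mem_product]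
    exact ⟨hx, (Set.Finite.mem_toFinset _).2 hw⟩
  have hone : ∀ i ∈ W, (((range (Y + 1)).filter fun b : ℕ => (b : ℤ) ∈ missed i.1 i.2).card : ℝ) ≤
      C i * ((Y : ℝ) + 1) ^ (1 - δ₀) := by
    intro i hi
    have h4 : (((range (Y + 1)).filter fun b : ℕ => (b : ℤ) ∈ missed i.1 i.2).card : ℝ) ≤
        ((missed i.1 i.2 ∩ Set.Icc 0 (Y : ℤ)).ncard : ℝ) := by
      rw [Nat.cast_le, ← Set.ncard_coe_finset]
      refine Set.ncard_le_ncard_of_injOn (fun b : ℕ => (b : ℤ)) ?_ ?_ ((Set.finite_Icc _ _).subset Set.inter_subset_right)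
      · intro b hb
        rw [mem_coe, mem_filter, mem_range] at hb
        refine ⟨hb.2, ?_, ?_⟩
        · show (0 : ℤ) ≤ (b : ℤ)
          omega
        · show (b : ℤ) ≤ (Y : ℤ)
          have := hb.1
          omega
      · intro b _ b' _ h
        have h' : (b : ℤ) = (b' : ℤ) := h
        exact_mod_cast h'
    refine h4.trans ((hC i hi Y).trans ?_)
    apply mul_le_mul_of_nonneg_left _ (hC0 i hi)
    exact Real.rpow_le_rpow_of_exponent_le hY (by linarith [h3 i hi])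
  calc (((range (Y + 1)).filter (Miss 𝒳 L)).card : ℝ)
      ≤ ∑ i ∈ W, (((range (Y + 1)).filter fun b : ℕ => (b : ℤ) ∈ missed i.1 i.2).card : ℝ) := by
        have := (card_le_card hsub).trans card_biUnion_le
        exact_mod_cast this
    _ ≤ ∑ i ∈ W, C i * ((Y : ℝ) + 1) ^ (1 - δ₀) := sum_le_sum hone
    _ = (∑ i ∈ W, C i) * ((Y : ℝ) + 1) ^ (1 - δ₀) := by rw [sum_mul]

/-- **Theorem.** -/
theorem result (𝒳 : Finset Conf) (h𝒳 : ∀ x ∈ 𝒳, IsFin x ∧ x ≠ 0) (L : ℕ) : ∃ c : ℝ, 0 < c ∧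
    ∀ κ : ℝ, 0 < κ → ∀ m : ℕ, ∃ c' : ℝ, 0 < c' ∧
    ∀ Z : ℕ, ∃ D : ℕ, ∃ X₀ : ℝ, ∀ X : ℝ, X₀ ≤ X →
    ∃ S : Finset ℕ, (∀ q ∈ S, q.Prime ∧ Z < q) ∧ (S.card : ℝ) ≤ (Real.log X) ^ (49 / 50 : ℝ) ∧
    ∀ f : ℕ → ℤ, (∀ q, f q = 1 ∨ f q = -1) →
      X ^ (1 - κ) ≤ (((Icc 1 ⌊3 * X⌋₊).filter fun r : ℕ => X < r ∧
        m ≤ ((Icc r (r + D)).filter Nat.Prime).card ∧
        ∀ p ∈ Icc r (r + D), p.Prime → Fine 𝒳 L c p ∧
          ∀ q : ℕ, q.Prime → q ≠ 2 → (q : ℝ) ≤ c' * Real.log X → q ∉ S → jacobiSym p q = f q).card : ℝ) := by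
  obtain ⟨C, δ, hδ, hδ1, hfew⟩ := few 𝒳 h𝒳 L
  have hF : ∀ (c : ℝ) (p : ℕ), Pool.Agent.Q84.NX.WinFine (Miss 𝒳 L) c p ↔ Fine 𝒳 L c p := by
    intro c p
    unfold Pool.Agent.Q84.NX.WinFine Fine
    constructor
    · intro h k j hk1 hk2 hkj x hx w hw
      by_contra hcon
      push Not at hcon
      exact h k j hk1 hk2 hkj ⟨x, hx, w, hw, hcon⟩
    · intro h k j hk1 hk2 hkj ⟨x, hx, w, hw, hm⟩
      obtain ⟨n, hn⟩ := h k j hk1 hk2 hkj x hx w hw
      exact hm n hn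
  refine ⟨δ / 8, by positivity, fun κ hκ m => Pool.Agent.Q84.NX.strings_of (Fine 𝒳 L (δ / 8)) (δ / 2) (by positivity) ?_ κ hκ m⟩
  have h := Pool.Agent.Q84.NX.win_bad (Miss 𝒳 L) C δ hδ hδ1 hfew (δ / 8) (by positivity) le_rfl
  simp only [hF] at h
  exact h

end Pool.Agent.Results.MP_cc0c1a_nt.StringsOfPositions
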